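import Pool.Agent.R688.GU.Fin1

/-!
# The Cohen-Macaulay type of Golod quotients (MP_5d828d_al, Q2)

The Golod ring `k[x, y, z] / (x², x y, y³, y² z)` has type one although the ideal has height two.
-/

set_option autoImplicit false

open MvPolynomial Pool.Agent.R688.GU

namespace Pool.Agent.Results.MP_5d828d_al.GolodTypeOne

/-- For every field `k` there is a homogeneous ideal `I ⊆ (x, y, z)²` of `S = k[x, y, z]`, namely
`I = (x², x y, y³, y² z)`, such that `S / I` is Golod of depth zero and of type at most one, while
`I` has height at least two; so without the Cohen-Macaulay hypothesis the inequality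
`type ≥ height` fails even for type one. -/
theorem result (k : Type) [Field k] : ∃ I : Ideal (MvPolynomial (Fin 3) k),
    IsHomog I ∧ I ≤ (maxS k 3) ^ 2 ∧ IsGolod (xbar I) ∧ depthR I = 0 ∧
      typeR I ≤ 1 ∧ 2 ≤ I.height ∧ typeR I < I.height := by
  refine ⟨Two.I₂ k, Two.homog, Two.le_sq, Two.golod, ?_, Two.type_le, Two.height_ge, ?_⟩
  · refine depthR_eq_zero (r := Two.y ^ 2) ?_ ?_
    · intro i
      fin_cases i
      · exact (mul_comm _ _).trans Two.xyy
      · exact (mul_comm _ _).trans Two.yyy
      · exact (mul_comm _ _).trans Two.zyy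
    · intro h
      have h1 : (Two.y : Two.R₂ k) ^ 2 = Two.nf 0 0 0 1 := by unfold Two.nf; simp
      rw [h1] at h
      exact one_ne_zero (Two.nf_eq_zero h).2.2.2
  · refine lt_of_le_of_lt Two.type_le (lt_of_lt_of_le ?_ Two.height_ge)
    norm_num

end Pool.Agent.Results.MP_5d828d_al.GolodTypeOne
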