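import Pool.Agent.R688.GU.Fin1

/-!
# The Cohen-Macaulay type of Golod quotients (MP_5d828d_al, Q1)

There is a Cohen-Macaulay Golod quotient of `k[x, y, z]` by a homogeneous ideal contained in
`(x, y, z)²` whose type is smaller than the height of the ideal.
-/

set_option autoImplicit false

open MvPolynomial Pool.Agent.R688.GU

namespace Pool.Agent.Results.MP_5d828d_al.GolodTypeTwo

/-- For every field `k` there is a homogeneous ideal `I ⊆ (x, y, z)²` of `S = k[x, y, z]` such that
`S / I` is Cohen-Macaulay (of depth and Krull dimension `0`) and Golod, of type at most `2`, while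
`I` has height at least `3`; so the type of `S / I` is smaller than the height of `I`. -/
theorem result (k : Type) [Field k] : ∃ I : Ideal (MvPolynomial (Fin 3) k),
    IsHomog I ∧ I ≤ (maxS k 3) ^ 2 ∧ IsCMR I ∧ IsGolod (xbar I) ∧
      typeR I ≤ 2 ∧ 3 ≤ I.height ∧ typeR I < I.height := by
  refine ⟨One.I₁ k, One.homog, One.I₁_le, One.isCM, One.golod, One.type_le, One.height_ge, ?_⟩
  refine lt_of_le_of_lt One.type_le (lt_of_lt_of_le ?_ One.height_ge)
  norm_num

end Pool.Agent.Results.MP_5d828d_al.GolodTypeTwo
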